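import Pool.Agent.Lib.MP_a349b4_lc.TH.Go

/-! The stored sets: an online greedy set of unreachable vertices for a root of large degree,
a table of two-step neighbours for a root of small degree. -/

set_option autoImplicit false

namespace Pool.Agent.Lib.MP_a349b4_lc.TH

open Finset

variable (n : ℕ) (R : ℕ → ℕ → Prop) [DecidableRel R] (T : ℕ)

def AH (u : ℕ) (S : Finset ℕ) : Finset ℕ := mk (insert n S) (outS n R u) (insert n S) ∅

def AL (B : Finset ℕ) : Finset ℕ := mk {n, n + 1} ∅ {n, n + 1} B

open Classical in
noncomputable def gr (u : ℕ) : ℕ → Finset ℕ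
  | 0 => ∅
  | v + 1 =>
    if ¬ rch n R u v ∧ go (AH n R u (gr u v)) (tab n R T v) (2 * T + 4) 0 0 = true then
      insert v (gr u v) else gr u v

open Classical in
noncomputable def ch (S : Finset ℕ) (b : ℕ) : ℕ :=
  3 * ((range n).filter fun x => R b x ∧ ∃ t ∈ S, R b t ∧ x ≤ t).card +
    if ∃ t ∈ S, R b t then (inL n R b).length else 0

variable {n R T} {u v : ℕ} {S B : Finset ℕ}

theorem mem_gr {z : ℕ} : ∀ {v}, z ∈ gr n R T u v → z < v ∧ ¬ rch n R u z := by
  intro v
  induction v with
  | zero => simp [gr]
  | succ v ih =>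
    rw [gr]
    split_ifs with h
    · intro k
      rcases mem_insert.1 k with rfl | k
      · exact ⟨by omega, h.1⟩
      · exact ⟨by have := (ih k).1; omega, (ih k).2⟩
    · exact fun k => ⟨by have := (ih k).1; omega, (ih k).2⟩

theorem gr_stable {z v v' : ℕ} (h : z < v) (h' : v ≤ v') :
    z ∈ gr n R T u v' ↔ z ∈ gr n R T u v := by
  induction h' with
  | refl => rfl
  | @step m hm ih =>
    have hm' : v ≤ m := hm
    rw [gr]
    split_ifs
    · rw [mem_insert, ih]
      exact or_iff_right (by omega)
    · exact ih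

theorem heavy_true (hS : ∀ z ∈ S, z < n ∧ ¬ rch n R u z) (hv : v < n) (h : rch n R u v) (f : ℕ) :
    go (AH n R u S) (tab n R T v) f 0 0 = true := by
  obtain ⟨a, ha, b, hb, h1, h2, h3⟩ := h
  obtain ⟨i0, hi, hib⟩ := exists_idx hb h3
  have hm : 4 * a + 1 ∈ row n R v b := by
    simp only [row, List.mem_cons, List.mem_append, List.mem_map, mem_inL]
    exact Or.inr (Or.inr (Or.inr ⟨a, ⟨ha, h2⟩, rfl⟩))
  obtain ⟨j0, hj, hjb⟩ := List.getElem_of_mem hm
  refine go_true (i0 + 1) j0 ?_ ?_ ?_ f 0 0 (Or.inl (by omega))
  · rintro (_ | i) hi' j k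
    · rcases tab_zero (n := n) (R := R) (T := T) v j with e | ⟨-, e⟩ | ⟨-, e⟩
      · omega
      · rw [e, AH, mem_mk2, mem_insert] at k
        rcases k with k | k
        · omega
        · exact absurd ⟨a, ha, b, hb, h1, h2, h3⟩ (hS _ k).2
      · rw [e, AH, mem_mk2, mem_insert] at k
        rcases k with k | k
        · omega
        · have := (hS _ k).1; omega
    · exact tab_ne (by omega) j
  · rw [tab_succ hi, hib, List.getD_eq_getElem _ _ hj, hjb, AH, mem_mk1, mem_outS]
    exact ⟨ha, h1⟩
  · intro j hj' k
    rw [tab_succ hi, hib, List.getD_eq_getElem _ _ (hj'.trans_lt hj)] at k ⊢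
    rcases mem_row (List.getElem_mem (hj'.trans_lt hj)) with e | e | ⟨x, k1, k2, e⟩ | ⟨x, -, -, e⟩
    · omega
    · rw [e, AH, mem_mk0, mem_insert] at k
      rcases k with k | k
      · omega
      · have := (hS _ k).1; omega
    · rw [e, AH, mem_mk0, mem_insert] at k
      rcases k with k | k
      · omega
      · exact absurd ⟨a, ha, b, hb, h1, h2, k2⟩ (hS _ k).2
    · omega

theorem heavy_false (hS : ∀ z ∈ S, z < v) (hv : v < n) (h : ¬ rch n R u v) (p : ℕ → ℕ)
    (hp : ∀ b < n, R b v → (row n R v b).getD (p b) (4 * n) ∈ AH n R u S) (f : ℕ)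
    (hf : (∑ b ∈ range n, if R b v then p b + 1 else 0) + 4 ≤ f) :
    go (AH n R u S) (tab n R T v) f 0 0 = false := by
  obtain ⟨L, hL⟩ : ∃ L, L = (inL n R v).length := ⟨_, rfl⟩
  refine go_false (L + 1) (fun i => Nat.casesOn i 2 fun i =>
    if i < L then p ((inL n R v).getD i 0) else 0) ?_ ?_ ?_ f 0 0 (by omega) (by omega) ?_
  · rintro (_ | i) hi
    · change 4 * n ∈ _
      rw [AH, mem_mk0]
      exact mem_insert_self _ _
    · by_cases k : i < L
      · simp only [k, if_true]
        rw [tab_succ (hL ▸ k)]
        exact hp _ (getD_inL (hL ▸ k)).1 (getD_inL (hL ▸ k)).2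
      · simp only [k, if_false]
        rw [tab_end (by omega)]
        change 4 * n + 2 ∈ _
        rw [AH, mem_mk2]
        exact mem_insert_self _ _
  · rintro (_ | i) hi j - k
    · rcases tab_zero (n := n) (R := R) (T := T) v j with e | ⟨-, e⟩ | ⟨-, e⟩
      · omega
      all_goals
        rw [e, AH, mem_mk2, mem_insert] at k
        rcases k with k | k
        · omega
        · have := hS _ k; omega
    · have hi' : i < (inL n R v).length := by omega
      rw [tab_succ hi'] at k ⊢
      rcases getD_cases (row n R v ((inL n R v).getD i 0)) j (4 * n) with e | e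
      · omega
      · rcases mem_row e with e | e | ⟨x, -, -, e⟩ | ⟨x, k1, k2, e⟩
        · rw [e, AH, mem_mk3] at k
          simp at k
        · omega
        · omega
        · rw [e, AH, mem_mk1, mem_outS] at k
          exact absurd ⟨x, k1, _, (getD_inL hi').1, k.2, k2, (getD_inL hi').2⟩ h
  · intro j hj _
    obtain rfl : j = 0 := by simpa using hj
    rw [tab_end (by omega)]
    change (4 * n + 2) % 4 = 2
    omega
  · rw [← range_eq_Ico, sum_range_succ', sum_range_succ]
    have : ∑ i ∈ range L, ((if i < L then p ((inL n R v).getD i 0) else 0) + 1) =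
        ∑ b ∈ range n, if R b v then p b + 1 else 0 := by
      rw [← sum_inL (fun b => p b + 1), ← hL]
      exact sum_congr rfl fun i hi => by rw [if_pos (mem_range.1 hi)]
    simp only [this, lt_irrefl, if_false]
    omega

theorem light_true (hv : v < n) {b : ℕ} (hb : b < n) (h : R b v) (hB : b ∈ B)
    (hT : (inL n R v).length ≤ T) (f : ℕ) : go (AL n B) (tab n R T v) f 0 0 = true := by
  obtain ⟨i0, hi, hib⟩ := exists_idx hb h
  have e0 : tab n R T v (i0 + 1) 0 = 4 * b + 3 := by rw [tab_succ hi, hib]; rfl
  refine go_true (i0 + 1) 0 ?_ ?_ ?_ f 0 0 (Or.inl (by omega))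
  · rintro (_ | i) hi' j k
    · rcases tab_zero (n := n) (R := R) (T := T) v j with e | ⟨-, e⟩ | ⟨e, -⟩
      · omega
      · rw [e, AL, mem_mk2] at k
        simp only [mem_insert, mem_singleton] at k
        omega
      · omega
    · exact tab_ne (by omega) j
  · rwa [e0, AL, mem_mk3]
  · intro j hj _
    obtain rfl : j = 0 := by omega
    omega

theorem light_false (hv : v < n) (h : ∀ b ∈ B, ¬ R b v) :
    go (AL n B) (tab n R T v) (2 * T + 4) 0 0 = false := by
  have hz : 4 * v + 2 ∉ AL n B := by
    rw [AL, mem_mk2]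
    simp only [mem_insert, mem_singleton]
    omega
  obtain ⟨L, hL⟩ : ∃ L, L = (inL n R v).length := ⟨_, rfl⟩
  rcases Nat.lt_or_ge T L with hT | hT
  · have e1 : tab n R T v 0 1 = 4 * (n + 1) + 2 := by simp [tab, blk, ← hL, hT]
    refine go_false 0 (fun _ => 1) ?_ (by omega) ?_ _ 0 0 le_rfl (by omega) (by simp)
    · intro i hi
      obtain rfl : i = 0 := by omega
      rw [e1, AL, mem_mk2]
      simp
    · rintro (_ | _ | j) hj k
      · exact absurd k hz
      · rw [e1]; omega
      · omega
  · refine go_false (L + 1) (fun i => Nat.casesOn i 2 fun i => if i < L then 1 else 0) ?_ ?_ ?_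
      _ 0 0 (by omega) (by omega) ?_
    · rintro (_ | i) hi
      · change 4 * n ∈ _
        rw [AL, mem_mk0]
        simp
      · by_cases k : i < L
        · simp only [k, if_true]
          rw [tab_succ (hL ▸ k)]
          change 4 * (n + 1) ∈ _
          rw [AL, mem_mk0]
          simp
        · simp only [k, if_false]
          rw [tab_end (by omega)]
          change 4 * n + 2 ∈ _
          rw [AL, mem_mk2]
          simp
    · rintro (_ | i) hi j hj k
      · rcases tab_zero (n := n) (R := R) (T := T) v j with e | ⟨-, e⟩ | ⟨e, -⟩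
        · omega
        · exact absurd (e ▸ k) hz
        · omega
      · have hi' : i < (inL n R v).length := by omega
        have hi2 : i < L := by omega
        simp only [hi2, if_true] at hj
        rw [tab_succ hi'] at k ⊢
        rcases j with _ | _ | j
        · change 4 * _ + 3 ∈ _ at k
          rw [AL, mem_mk3] at k
          exact absurd (getD_inL hi').2 (h _ k)
        · change 4 * (n + 1) % 4 = 0
          omega
        · omega
    · intro j hj _
      obtain rfl : j = 0 := by simpa using hj
      rw [tab_end (by omega)]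
      change (4 * n + 2) % 4 = 2
      omega
    · rw [← range_eq_Ico, sum_range_succ', sum_range_succ]
      have : ∑ i ∈ range L, ((if i < L then 1 else 0) + 1) = ∑ _i ∈ range L, 2 :=
        sum_congr rfl fun i hi => by rw [if_pos (mem_range.1 hi)]
      simp only [this, lt_irrefl, if_false, sum_const, card_range, smul_eq_mul]
      change L * 2 + (0 + 1) + (2 + 1) ≤ _
      omega

theorem ch_mono (v b : ℕ) : ch n R S b ≤ ch n R (insert v S) b := by
  classical
  refine Nat.add_le_add (Nat.mul_le_mul_left _ (card_le_card fun x hx => ?_)) ?_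
  · simp only [mem_filter] at hx ⊢
    obtain ⟨h1, h2, t, h3, h4⟩ := hx
    exact ⟨h1, h2, t, mem_insert_of_mem h3, h4⟩
  · split_ifs with h1 h2
    · exact le_rfl
    · obtain ⟨t, k1, k2⟩ := h1
      exact absurd ⟨t, mem_insert_of_mem k1, k2⟩ h2
    all_goals omega

theorem ch_step (hS : ∀ z ∈ S, z < v) (hv : v < n) {b : ℕ} (h : R b v) :
    ∃ p, (row n R v b).getD p (4 * n) ∈ AH n R u S ∧
      ch n R S b + (p + 1) ≤ ch n R (insert v S) b := by
  classical
  have hn : ∃ t ∈ insert v S, R b t := ⟨v, mem_insert_self _ _, h⟩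
  by_cases hx : ∃ t ∈ S, R b t
  · obtain ⟨t, ht, hmax⟩ := exists_max_image (S.filter fun t => R b t) id
      (let ⟨t, k1, k2⟩ := hx; ⟨t, mem_filter.2 ⟨k1, k2⟩⟩)
    rw [mem_filter] at ht
    obtain ⟨q, q1, q2, q3⟩ := pos_desc ht.2 v (hS t ht.1)
    refine ⟨q + 2, ?_, ?_⟩
    · rw [row, List.getD_cons_succ, List.getD_cons_succ,
        List.getD_append _ _ _ _ (by simpa using q2), List.getD_eq_getElem _ _ (by simpa using q2),
        List.getElem_map, ← List.getD_eq_getElem _ 0 q2, q3, AH, mem_mk0]
      exact mem_insert_of_mem ht.1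
    · have key : ((range n).filter fun x => R b x ∧ ∃ t ∈ S, R b t ∧ x ≤ t).card +
          (insert v ((range v).filter fun x => t < x ∧ R b x)).card ≤
          ((range n).filter fun x => R b x ∧ ∃ t ∈ insert v S, R b t ∧ x ≤ t).card := by
        rw [← card_union_of_disjoint]
        · refine card_le_card fun x hx => ?_
          simp only [mem_union, mem_filter, mem_insert, mem_range] at hx ⊢
          rcases hx with ⟨h1, h2, t', h3, h4⟩ | rfl | ⟨h1, -, h2⟩
          · exact ⟨h1, h2, t', Or.inr h3, h4⟩
          · exact ⟨hv, h, x, Or.inl rfl, h, le_rfl⟩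
          · exact ⟨by omega, h2, v, Or.inl rfl, h, h1.le⟩
        · refine disjoint_left.2 fun x h1 h2 => ?_
          simp only [mem_filter, mem_insert, mem_range] at h1 h2
          obtain ⟨-, -, t', h3, h4, h5⟩ := h1
          have k1 : t' ≤ t := hmax t' (mem_filter.2 ⟨h3, h4⟩)
          have k2 := hS t ht.1
          omega
      rw [card_insert_of_notMem (by simp)] at key
      rw [ch, ch, if_pos hx, if_pos hn]
      omega
  · refine ⟨(row n R v b).length, ?_, ?_⟩
    · rw [List.getD_eq_default _ _ le_rfl, AH, mem_mk0]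
      exact mem_insert_self _ _
    · have key : (insert v ((range v).filter fun x => R b x)).card ≤
          ((range n).filter fun x => R b x ∧ ∃ t ∈ insert v S, R b t ∧ x ≤ t).card := by
        refine card_le_card fun x hx => ?_
        simp only [mem_filter, mem_insert, mem_range] at hx ⊢
        rcases hx with rfl | ⟨h1, h2⟩
        · exact ⟨hv, h, x, Or.inl rfl, h, le_rfl⟩
        · exact ⟨by omega, h2, v, Or.inl rfl, h, h1.le⟩
      have e0 : ((range n).filter fun x => R b x ∧ ∃ t ∈ S, R b t ∧ x ≤ t).card = 0 := by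
        rw [card_eq_zero, filter_eq_empty_iff]
        rintro x - ⟨-, t, k1, k2, -⟩
        exact hx ⟨t, k1, k2⟩
      rw [card_insert_of_notMem (by simp), ← length_desc] at key
      rw [ch, ch, if_neg hx, if_pos hn, e0, row]
      simp only [List.length_cons, List.length_append, List.length_map]
      omega

theorem gr_card (u : ℕ) : ∀ v ≤ n,
    (gr n R T u v).card * (2 * T + 1) ≤ ∑ b ∈ range n, ch n R (gr n R T u v) b := by
  intro v
  induction v with
  | zero => simp [gr]
  | succ v ih =>
    intro hv
    have ih := ih (by omega)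
    rw [gr]
    split_ifs with h
    · have hS : ∀ z ∈ gr n R T u v, z < v := fun z hz => (mem_gr hz).1
      have : ∀ b, ∃ p, R b v → (row n R v b).getD p (4 * n) ∈ AH n R u (gr n R T u v) ∧
          ch n R (gr n R T u v) b + (p + 1) ≤ ch n R (insert v (gr n R T u v)) b := fun b => by
        by_cases k : R b v
        · exact (ch_step hS hv k).imp fun p hp _ => hp
        · exact ⟨0, fun k' => absurd k' k⟩
      choose p hp using this
      have h1 : 2 * T + 1 ≤ ∑ b ∈ range n, if R b v then p b + 1 else 0 := by
        by_contra hc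
        have := heavy_false (T := T) hS hv h.1 p (fun b _ k => (hp b k).1) (2 * T + 4) (by omega)
        rw [h.2] at this
        exact absurd this (by simp)
      have h2 : ∑ b ∈ range n, ch n R (gr n R T u v) b +
          (∑ b ∈ range n, if R b v then p b + 1 else 0) ≤
          ∑ b ∈ range n, ch n R (insert v (gr n R T u v)) b := by
        rw [← sum_add_distrib]
        refine sum_le_sum fun b _ => ?_
        split_ifs with k
        · exact (hp b k).2
        · exact ch_mono v b
      rw [card_insert_of_notMem fun k => absurd (hS v k) (lt_irrefl _), Nat.succ_mul]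
      omega
    · exact ih

theorem ch_le (S : Finset ℕ) (b : ℕ) :
    ch n R S b ≤ 3 * (outS n R b).card + (inL n R b).length := by
  classical
  refine Nat.add_le_add (Nat.mul_le_mul_left _ (card_le_card fun x hx => ?_)) ?_
  · simp only [mem_filter, mem_range] at hx
    exact mem_outS.2 ⟨hx.1, hx.2.1⟩
  · split_ifs <;> omega

theorem heavy_iff (hv : v < n) :
    go (AH n R u (gr n R T u n)) (tab n R T v) (2 * T + 4) 0 0 = true ↔ rch n R u v := by
  refine ⟨fun h => ?_, fun h => heavy_true (fun z hz => mem_gr hz) hv h _⟩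
  by_contra hc
  by_cases k : v ∈ gr n R T u n
  · have := go_false (A := AH n R u (gr n R T u n)) (it := tab n R T v) 0 (fun _ => 0)
      (fun i hi => ?_) (by omega) (fun j hj _ => ?_) (2 * T + 4) 0 0 le_rfl le_rfl (by simp)
    · rw [h] at this
      exact absurd this (by simp)
    · obtain rfl : i = 0 := by omega
      change 4 * v + 2 ∈ _
      rw [AH, mem_mk2]
      exact mem_insert_of_mem k
    · obtain rfl : j = 0 := by omega
      change (4 * v + 2) % 4 = 2
      omega
  · have k1 : v ∉ gr n R T u v := fun k => absurd (mem_gr k).1 (lt_irrefl _)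
    have k2 : n + 1 ∉ gr n R T u v := fun k => by have := (mem_gr k).1; omega
    have k3 : n + 1 ∉ gr n R T u n := fun k => by have := (mem_gr k).1; omega
    rw [go_congr (A' := AH n R u (gr n R T u v))] at h
    · refine k ((gr_stable (Nat.lt_succ_self v) hv).2 ?_)
      rw [gr, if_pos ⟨hc, h⟩]
      exact mem_insert_self _ _
    · intro i j
      rcases tab_cases (n := n) (R := R) (T := T) v i j with e | e | e | e | ⟨b, -, e⟩
      · simp [e, AH, mem_mk0]
      · simp only [e, AH, mem_mk2, mem_insert, k, k1]
      · simp only [e, AH, mem_mk2, mem_insert, k2, k3]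
      · simp [e, AH, mem_mk2]
      · rcases mem_row e with e | e | ⟨x, x1, -, e⟩ | ⟨x, -, -, e⟩
        · simp only [e, AH, mem_mk3]
        · simp only [e, AH, mem_mk0, mem_insert, k2, k3]
        · simp only [e, AH, mem_mk0, mem_insert, gr_stable x1 hv.le]
        · simp only [e, AH, mem_mk1]

end Pool.Agent.Lib.MP_a349b4_lc.TH
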