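import Mathlib

/-! The scan of a table of keys against a stored set, and the tables for three steps. -/

set_option autoImplicit false

namespace Pool.Agent.Lib.MP_a349b4_lc.TH

open Finset

/-- Scan with fuel: a stored odd key accepts, a stored key that is `2` modulo `4` rejects, any
other stored key jumps to the next row; running out of fuel accepts. -/
def go (A : Finset ℕ) (it : ℕ → ℕ → ℕ) : ℕ → ℕ → ℕ → Bool
  | 0, _, _ => true
  | f + 1, i, j =>
    if it i j ∈ A then
      (if it i j % 2 = 1 then true else if it i j % 4 = 2 then false else go A it f (i + 1) 0)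
    else go A it f i (j + 1)

variable {A A' : Finset ℕ} {it : ℕ → ℕ → ℕ}

theorem go_congr (h : ∀ i j, it i j ∈ A ↔ it i j ∈ A') :
    ∀ f i j, go A it f i j = go A' it f i j := by
  intro f
  induction f with
  | zero => intro i j; rfl
  | succ f ih => intro i j; simp only [go, h, ih]

theorem go_true (i0 j0 : ℕ) (h1 : ∀ i < i0, ∀ j, it i j ∈ A → it i j % 4 ≠ 2)
    (h2 : it i0 j0 ∈ A) (h3 : ∀ j ≤ j0, it i0 j ∈ A → it i0 j % 2 = 1) :
    ∀ f i j, (i < i0 ∨ (i = i0 ∧ j ≤ j0)) → go A it f i j = true := by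
  intro f
  induction f with
  | zero => intro i j _; rfl
  | succ f ih =>
    intro i j h
    rw [go]
    rcases h with h | ⟨rfl, h⟩
    · split_ifs with k1 k2 k3
      · rfl
      · exact absurd k3 (h1 i h j k1)
      · exact ih _ _ (by omega)
      · exact ih _ _ (Or.inl h)
    · by_cases k1 : it i j ∈ A
      · rw [if_pos k1, if_pos (h3 j h k1)]
      · rw [if_neg k1]
        refine ih _ _ (Or.inr ⟨rfl, ?_⟩)
        rcases Nat.lt_or_ge j j0 with k | k
        · exact k
        · obtain rfl : j = j0 := by omega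
          exact absurd h2 k1

theorem go_false (r : ℕ) (p : ℕ → ℕ) (h1 : ∀ i ≤ r, it i (p i) ∈ A)
    (h2 : ∀ i < r, ∀ j ≤ p i, it i j ∈ A → it i j % 4 = 0)
    (h3 : ∀ j ≤ p r, it r j ∈ A → it r j % 4 = 2) :
    ∀ f i j, i ≤ r → j ≤ p i → ∑ x ∈ Ico i (r + 1), (p x + 1) ≤ f + j → go A it f i j = false := by
  intro f
  induction f with
  | zero =>
    intro i j hi hj h
    rw [sum_eq_sum_Ico_succ_bot (by omega)] at h
    omega
  | succ f ih =>
    intro i j hi hj h
    rw [go]
    by_cases k1 : it i j ∈ A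
    · rw [if_pos k1]
      rcases Nat.lt_or_ge i r with k | k
      · have := h2 i k j hj k1
        rw [if_neg (by omega), if_neg (by omega)]
        rw [sum_eq_sum_Ico_succ_bot (by omega)] at h
        exact ih _ _ k (Nat.zero_le _) (by omega)
      · obtain rfl : i = r := by omega
        have := h3 j hj k1
        rw [if_neg (by omega), if_pos this]
    · rw [if_neg k1]
      refine ih _ _ hi ?_ (by omega)
      rcases Nat.lt_or_ge j (p i) with k | k
      · exact k
      · obtain rfl : j = p i := by omega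
        exact absurd (h1 i hi) k1

/-- Four sets stored in one, by the residue modulo `4`. -/
def mk (S0 S1 S2 S3 : Finset ℕ) : Finset ℕ :=
  S0.image (fun z => 4 * z) ∪ S1.image (fun z => 4 * z + 1) ∪ S2.image (fun z => 4 * z + 2) ∪
    S3.image (fun z => 4 * z + 3)

variable {S0 S1 S2 S3 : Finset ℕ} {z : ℕ}

theorem mem_mk {k : ℕ} : k ∈ mk S0 S1 S2 S3 ↔ (∃ z ∈ S0, 4 * z = k) ∨ (∃ z ∈ S1, 4 * z + 1 = k) ∨
    (∃ z ∈ S2, 4 * z + 2 = k) ∨ ∃ z ∈ S3, 4 * z + 3 = k := by
  simp only [mk, mem_union, mem_image, or_assoc]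

theorem mem_mk0 : 4 * z ∈ mk S0 S1 S2 S3 ↔ z ∈ S0 := by
  rw [mem_mk]
  refine ⟨?_, fun h => Or.inl ⟨z, h, rfl⟩⟩
  rintro (⟨y, h, k⟩ | ⟨y, h, k⟩ | ⟨y, h, k⟩ | ⟨y, h, k⟩)
  · rwa [show z = y by omega]
  all_goals omega

theorem mem_mk1 : 4 * z + 1 ∈ mk S0 S1 S2 S3 ↔ z ∈ S1 := by
  rw [mem_mk]
  refine ⟨?_, fun h => Or.inr (Or.inl ⟨z, h, rfl⟩)⟩
  rintro (⟨y, h, k⟩ | ⟨y, h, k⟩ | ⟨y, h, k⟩ | ⟨y, h, k⟩)
  · omega
  · rwa [show z = y by omega]
  all_goals omega

theorem mem_mk2 : 4 * z + 2 ∈ mk S0 S1 S2 S3 ↔ z ∈ S2 := by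
  rw [mem_mk]
  refine ⟨?_, fun h => Or.inr (Or.inr (Or.inl ⟨z, h, rfl⟩))⟩
  rintro (⟨y, h, k⟩ | ⟨y, h, k⟩ | ⟨y, h, k⟩ | ⟨y, h, k⟩)
  · omega
  · omega
  · rwa [show z = y by omega]
  · omega

theorem mem_mk3 : 4 * z + 3 ∈ mk S0 S1 S2 S3 ↔ z ∈ S3 := by
  rw [mem_mk]
  refine ⟨?_, fun h => Or.inr (Or.inr (Or.inr ⟨z, h, rfl⟩))⟩
  rintro (⟨y, h, k⟩ | ⟨y, h, k⟩ | ⟨y, h, k⟩ | ⟨y, h, k⟩)
  · omega
  · omega
  · omega
  · rwa [show z = y by omega]

theorem card_mk : (mk S0 S1 S2 S3).card ≤ S0.card + S1.card + S2.card + S3.card :=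
  (card_union_le _ _).trans (Nat.add_le_add ((card_union_le _ _).trans (Nat.add_le_add
    ((card_union_le _ _).trans (Nat.add_le_add card_image_le card_image_le)) card_image_le))
    card_image_le)

variable (n : ℕ) (R : ℕ → ℕ → Prop) [DecidableRel R] (T : ℕ)

def inL (v : ℕ) : List ℕ := (List.range n).filter fun x => R x v

def desc (b : ℕ) : ℕ → List ℕ
  | 0 => []
  | v + 1 => if R b v then v :: desc b v else desc b v

def row (v b : ℕ) : List ℕ :=
  (4 * b + 3) :: (4 * (n + 1)) ::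
    ((desc R b v).map (fun z => 4 * z) ++ (inL n R b).map fun z => 4 * z + 1)

def blk (v : ℕ) : ℕ → List ℕ
  | 0 => [4 * v + 2, if T < (inL n R v).length then 4 * (n + 1) + 2 else 4 * n]
  | i + 1 => if i < (inL n R v).length then row n R v ((inL n R v).getD i 0) else [4 * n + 2]

def tab (v i j : ℕ) : ℕ := (blk n R T v i).getD j (4 * n)

def rch (u v : ℕ) : Prop := ∃ a < n, ∃ b < n, R u a ∧ R a b ∧ R b v

def outS (u : ℕ) : Finset ℕ := (range n).filter fun x => R u x

variable {n R T}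

theorem mem_inL {v x : ℕ} : x ∈ inL n R v ↔ x < n ∧ R x v := by simp [inL]

theorem mem_outS {u x : ℕ} : x ∈ outS n R u ↔ x < n ∧ R u x := by simp [outS]

theorem mem_desc {b x : ℕ} : ∀ {v}, x ∈ desc R b v ↔ x < v ∧ R b x := by
  intro v
  induction v with
  | zero => simp [desc]
  | succ v ih =>
    rw [desc]
    split_ifs with h
    · rw [List.mem_cons, ih]
      constructor
      · rintro (rfl | k)
        · exact ⟨by omega, h⟩
        · exact ⟨by omega, k.2⟩
      · intro k
        rcases Nat.lt_succ_iff_lt_or_eq.1 k.1 with k1 | k1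
        · exact Or.inr ⟨k1, k.2⟩
        · exact Or.inl k1
    · rw [ih]
      refine ⟨fun k => ⟨by omega, k.2⟩, fun k => ⟨?_, k.2⟩⟩
      rcases Nat.lt_succ_iff_lt_or_eq.1 k.1 with k1 | rfl
      · exact k1
      · exact absurd k.2 h

theorem length_desc (b : ℕ) : ∀ v, (desc R b v).length = ((range v).filter fun x => R b x).card := by
  intro v
  induction v with
  | zero => simp [desc]
  | succ v ih =>
    rw [desc, range_add_one, filter_insert]
    split_ifs with h
    · rw [List.length_cons, ih, card_insert_of_notMem (by simp)]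
    · exact ih

theorem pos_desc {b t : ℕ} (ht : R b t) : ∀ v, t < v →
    ∃ q ≤ ((range v).filter fun x => t < x ∧ R b x).card,
      q < (desc R b v).length ∧ (desc R b v).getD q 0 = t := by
  intro v
  induction v with
  | zero => intro h; omega
  | succ v ih =>
    intro h
    rw [desc, range_add_one, filter_insert]
    rcases Nat.lt_succ_iff_lt_or_eq.1 h with k | rfl
    · obtain ⟨q, h1, h2, h3⟩ := ih k
      by_cases hv : R b v
      · rw [if_pos hv, if_pos ⟨k, hv⟩, card_insert_of_notMem (by simp)]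
        exact ⟨q + 1, by omega, by simpa using h2, by simpa using h3⟩
      · rw [if_neg hv, if_neg fun k => hv k.2]
        exact ⟨q, h1, h2, h3⟩
    · rw [if_pos ht]
      exact ⟨0, Nat.zero_le _, by simp, by simp⟩

theorem mem_row {v b k : ℕ} (h : k ∈ row n R v b) : k = 4 * b + 3 ∨ k = 4 * (n + 1) ∨
    (∃ x < v, R b x ∧ k = 4 * x) ∨ ∃ a < n, R a b ∧ k = 4 * a + 1 := by
  simp only [row, List.mem_cons, List.mem_append, List.mem_map, mem_desc, mem_inL] at h
  rcases h with h | h | ⟨x, h, k⟩ | ⟨x, h, k⟩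
  · exact Or.inl h
  · exact Or.inr (Or.inl h)
  · exact Or.inr (Or.inr (Or.inl ⟨x, h.1, h.2, k.symm⟩))
  · exact Or.inr (Or.inr (Or.inr ⟨x, h.1, h.2, k.symm⟩))

theorem getD_cases (l : List ℕ) (j d : ℕ) : l.getD j d = d ∨ l.getD j d ∈ l := by
  rcases Nat.lt_or_ge j l.length with h | h
  · rw [List.getD_eq_getElem _ _ h]
    exact Or.inr (List.getElem_mem h)
  · exact Or.inl (List.getD_eq_default _ _ h)

theorem getD_inL {v i : ℕ} (h : i < (inL n R v).length) :
    (inL n R v).getD i 0 < n ∧ R ((inL n R v).getD i 0) v := by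
  rw [List.getD_eq_getElem _ _ h]
  exact mem_inL.1 (List.getElem_mem h)

theorem tab_zero (v j : ℕ) : tab n R T v 0 j = 4 * n ∨ (j = 0 ∧ tab n R T v 0 j = 4 * v + 2) ∨
    (T < (inL n R v).length ∧ tab n R T v 0 j = 4 * (n + 1) + 2) := by
  rcases j with _ | _ | j
  · exact Or.inr (Or.inl ⟨rfl, rfl⟩)
  · by_cases h : T < (inL n R v).length
    · exact Or.inr (Or.inr ⟨h, by simp [tab, blk, h]⟩)
    · exact Or.inl (by simp [tab, blk, h])
  · exact Or.inl (by simp [tab, blk])

theorem tab_succ {v i : ℕ} (h : i < (inL n R v).length) (j : ℕ) :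
    tab n R T v (i + 1) j = (row n R v ((inL n R v).getD i 0)).getD j (4 * n) := by
  rw [tab, blk, if_pos h]

theorem tab_end {v i : ℕ} (h : (inL n R v).length ≤ i) (j : ℕ) :
    tab n R T v (i + 1) j = [4 * n + 2].getD j (4 * n) := by
  rw [tab, blk, if_neg (by omega)]

theorem tab_cases (v i j : ℕ) : tab n R T v i j = 4 * n ∨ tab n R T v i j = 4 * v + 2 ∨
    tab n R T v i j = 4 * (n + 1) + 2 ∨ tab n R T v i j = 4 * n + 2 ∨
    ∃ b < n, tab n R T v i j ∈ row n R v b := by
  rcases i with _ | i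
  · rcases tab_zero (n := n) (R := R) (T := T) v j with h | h | h
    · exact Or.inl h
    · exact Or.inr (Or.inl h.2)
    · exact Or.inr (Or.inr (Or.inl h.2))
  · rcases Nat.lt_or_ge i (inL n R v).length with h | h
    · rw [tab_succ h]
      rcases getD_cases (row n R v ((inL n R v).getD i 0)) j (4 * n) with k | k
      · exact Or.inl k
      · exact Or.inr (Or.inr (Or.inr (Or.inr ⟨_, (getD_inL h).1, k⟩)))
    · rw [tab_end h]
      rcases getD_cases [4 * n + 2] j (4 * n) with k | k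
      · exact Or.inl k
      · exact Or.inr (Or.inr (Or.inr (Or.inl (List.mem_singleton.1 k))))

theorem tab_le {v : ℕ} (hv : v < n) (i j : ℕ) : tab n R T v i j ≤ 4 * n + 7 := by
  rcases tab_cases (n := n) (R := R) (T := T) v i j with h | h | h | h | ⟨b, hb, h⟩
  · omega
  · omega
  · omega
  · omega
  · rcases mem_row h with h | h | ⟨x, h1, -, h⟩ | ⟨x, h1, -, h⟩ <;> omega

theorem tab_ne {v i : ℕ} (h : i < (inL n R v).length) (j : ℕ) :
    tab n R T v (i + 1) j % 4 ≠ 2 := by
  rw [tab_succ h]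
  rcases getD_cases (row n R v ((inL n R v).getD i 0)) j (4 * n) with k | k
  · omega
  · rcases mem_row k with h | h | ⟨x, -, -, h⟩ | ⟨x, -, -, h⟩ <;> omega

theorem exists_idx {v b : ℕ} (hb : b < n) (h : R b v) :
    ∃ i < (inL n R v).length, (inL n R v).getD i 0 = b := by
  obtain ⟨i, h1, h2⟩ := List.getElem_of_mem (mem_inL.2 ⟨hb, h⟩ : b ∈ inL n R v)
  exact ⟨i, h1, by rw [List.getD_eq_getElem _ _ h1, h2]⟩

theorem sum_getD (g : ℕ → ℕ) (l : List ℕ) :
    ∑ i ∈ range l.length, g (l.getD i 0) = (l.map g).sum := by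
  induction l with
  | nil => simp
  | cons a l ih =>
    rw [List.length_cons, sum_range_succ', List.map_cons, List.sum_cons, ← ih, Nat.add_comm]
    simp

theorem sum_inL (g : ℕ → ℕ) (v : ℕ) : ∑ i ∈ range (inL n R v).length, g ((inL n R v).getD i 0) =
    ∑ b ∈ range n, if R b v then g b else 0 := by
  rw [sum_getD, inL]
  induction n with
  | zero => simp
  | succ n ih =>
    rw [List.range_succ, List.filter_append, List.map_append, List.sum_append, ih, sum_range_succ]
    by_cases h : R n v <;> simp [h]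

theorem length_inL (v : ℕ) : (inL n R v).length = (outS n (fun x y => R y x) v).card := by
  have := sum_inL (n := n) (R := R) (fun _ => 1) v
  rw [outS, card_filter, ← this]
  simp

end Pool.Agent.Lib.MP_a349b4_lc.TH
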