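import Pool.Agent.Lib.MP_a349b4_lc.LG.Comp
import Pool.Agent.Lib.MP_a349b4_lc.TH.Go

/-! The query program: binary search inside the scan, and the scan run twice. -/

set_option autoImplicit false

namespace Pool.Agent.Lib.MP_a349b4_lc.TH

open Function LG

variable {w : ℕ} {D : List ℕ} {r W : ℕ → ℕ}

theorem tr_wh {Q : (ℕ → ℕ) → (ℕ → ℕ) → Prop} {t : ℕ} {c : Cmd} {i j : ℕ}
    (I : ℕ → (ℕ → ℕ) → (ℕ → ℕ) → Prop)
    (hs : ∀ m r W, I (m + 1) r W → r i < r j → Tr w D c r W (I m) t)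
    (h0 : ∀ r W, I 0 r W → ¬ r i < r j) (hQ : ∀ m r W, I m r W → ¬ r i < r j → Q r W) :
    ∀ N r W, I N r W → Tr w D (.loop i j c) r W Q (N * (t + 2) + 2) := by
  intro N
  induction N with
  | zero => exact fun r W h => ⟨_, _, _, .loopF (h0 _ _ h), by omega, hQ _ _ _ h (h0 _ _ h)⟩
  | succ N ih =>
    intro r W h
    by_cases k : r i < r j
    · obtain ⟨_, _, _, k1, k2, k3⟩ := hs N r W h k
      obtain ⟨_, _, _, l1, l2, l3⟩ := ih _ _ k3
      exact ⟨_, _, _, .loopT k k1 l1, by rw [Nat.succ_mul]; omega, l3⟩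
    · exact ⟨_, _, _, .loopF k, by omega, hQ _ _ _ h k⟩

theorem sorted_getD {l : List ℕ} (h : l.Pairwise (· < ·)) {a b : ℕ} (hab : a < b)
    (hb : b < l.length) : l.getD a 0 < l.getD b 0 := by
  rw [List.getD_eq_getElem _ _ hb, List.getD_eq_getElem _ _ (hab.trans hb)]
  exact List.pairwise_iff_getElem.1 h a b _ hb hab

theorem mem_iff_getD {l : List ℕ} {x : ℕ} : x ∈ l ↔ ∃ q < l.length, l.getD q 0 = x := by
  rw [List.mem_iff_getElem]
  exact exists_congr fun q => ⟨fun ⟨h, k⟩ => ⟨h, by rw [List.getD_eq_getElem _ _ h, k]⟩,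
    fun ⟨h, k⟩ => ⟨h, by rwa [List.getD_eq_getElem _ _ h] at k⟩⟩

structure Glob (r : ℕ → ℕ) : Prop where
  g2 : r 2 = 0
  g3 : r 3 = 1
  g4 : r 4 = 2
  g5 : r 5 = 4

theorem Glob.frame {r r' : ℕ → ℕ} (h : Glob r) (hf : ∀ j < 10, r' j = r j) : Glob r' := by
  constructor <;> rw [hf _ (by omega)]
  exacts [h.g2, h.g3, h.g4, h.g5]

def bsBody : Cmd :=
  .seq (.bin .add 23 20 21) <| .seq (.bin .div 23 23 4) <| .seq (.load 24 23) <|
  .ite 24 19 (.seq (.bin .add 20 23 3) .skip) <| .ite 19 24 (.seq (.bin .add 21 23 2) .skip) <|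
  .seq (.const 22 1) <| .seq (.bin .add 21 20 2) .skip

def bs : Cmd :=
  .seq (.bin .add 20 17 2) <| .seq (.bin .add 21 18 2) <| .seq (.const 22 0) <| .loop 20 21 bsBody

theorem bs_spec {l : List ℕ} {o x Lg B : ℕ} (hG : Glob r) (h17 : r 17 = o)
    (h18 : r 18 = o + l.length) (h19 : r 19 = x) (s1 : l.Pairwise (· < ·)) (s2 : l.length < 2 ^ Lg)
    (c2 : ∀ q < l.length, D.getD (o + q) 0 = l.getD q 0) (o1 : o + l.length ≤ B)
    (b5 : 4 * B + 8 < 2 ^ w) :
    Tr w D bs r W (fun r' _ => (∀ j < 20, r' j = r j) ∧ (0 < r' 22 ↔ x ∈ l))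
      (Lg * (9 + 2) + 2 + 1 + 1 + 1) := by
  refine Tr.bin o (by simp [Op.ev, h17, hG.g2]) (by omega) ?_
  refine Tr.bin (o + l.length) (by simp [Op.ev, h18, hG.g2]) (by omega) ?_
  refine Tr.const (by omega) ?_
  refine tr_wh (t := 9) (fun m r' _ => (∀ j < 20, r' j = r j) ∧ ∃ lo hi, r' 20 = o + lo ∧
      r' 21 = o + hi ∧ hi ≤ l.length ∧ hi < lo + 2 ^ m ∧ (r' 22 = 1 ∧ x ∈ l ∧ hi ≤ lo ∨
          r' 22 = 0 ∧ ∀ q < l.length, l.getD q 0 = x → lo ≤ q ∧ q < hi)) ?_ ?_ ?_ _ _ _ ?_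
  · rintro m r' W' ⟨hf, lo, hi, p1, p2, p3, p4, p5⟩ hc
    have G := hG.frame fun j hj => hf j (by omega)
    have k13 := (hf 19 (by omega)).trans h19
    have hm := Nat.two_pow_pos m
    rw [pow_succ] at p4
    obtain ⟨p5, p6⟩ := p5.resolve_left (by omega)
    obtain ⟨md, hmd⟩ : ∃ md, md = (lo + hi) / 2 := ⟨_, rfl⟩
    refine Tr.le (t' := 2 + 2 + 2 + 3) ?_ le_rfl
    refine Tr.bin (o + lo + (o + hi)) (by simp [Op.ev, p1, p2]) (by omega) ?_
    refine Tr.bin (o + md) (by simp [Op.ev, G.g4]; omega) (by omega) ?_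
    refine Tr.load (l.getD md 0) (by simpa using c2 md (by omega)) ?_
    refine Tr.ite (fun h => Tr.le (t' := 0 + 1) ?_ (by omega)) fun h =>
      Tr.ite (fun h' => Tr.le (t' := 0 + 1) ?_ (by omega)) fun h' => ?_
    · refine Tr.bin (o + (md + 1)) (by simp [Op.ev, G.g3, Nat.add_assoc]) (by omega) ?_
      refine Tr.skip ⟨fun j h1 => ?_, md + 1, hi, by simp, by simp [p2], p3, by omega,
        Or.inr ⟨by simp [p5], fun q h1 h2 => ⟨?_, (p6 q h1 h2).2⟩⟩⟩
      · simp (disch := omega) only [update_of_ne]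
        exact hf j h1
      · have h' : l.getD md 0 < x := by simpa [k13] using h
        by_contra hq
        rcases (show q = md ∨ q < md by omega) with rfl | hq
        · omega
        · have := sorted_getD s1 hq (by omega)
          omega
    · refine Tr.bin (o + md) (by simp [Op.ev, G.g2]) (by omega) ?_
      refine Tr.skip ⟨fun j h1 => ?_, lo, md, by simp [p1], by simp, by omega, by omega,
        Or.inr ⟨by simp [p5], fun q h1 h2 => ⟨(p6 q h1 h2).1, ?_⟩⟩⟩
      · simp (disch := omega) only [update_of_ne]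
        exact hf j h1
      · have h'' : x < l.getD md 0 := by simpa [k13] using h'
        by_contra hq
        rcases (show q = md ∨ md < q by omega) with rfl | hq
        · omega
        · have := sorted_getD s1 hq h1
          omega
    · refine Tr.const (by omega) ?_
      refine Tr.bin (o + lo) (by simp [Op.ev, G.g2, p1]) (by omega) ?_
      refine Tr.skip ⟨fun j h1 => ?_, lo, lo, by simp [p1], by simp, by omega, by omega,
        Or.inl ⟨by simp, mem_iff_getD.2 ⟨md, by omega, ?_⟩, le_rfl⟩⟩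
      · simp (disch := omega) only [update_of_ne]
        exact hf j h1
      · have h1 : x ≤ l.getD md 0 := by simpa [k13] using h
        have h2 : l.getD md 0 ≤ x := by simpa [k13] using h'
        omega
  · rintro r' W' ⟨-, lo, hi, p1, p2, -, p4, -⟩
    omega
  · rintro m r' W' ⟨hf, lo, hi, p1, p2, -, -, p5⟩ hc
    refine ⟨hf, ?_⟩
    rcases p5 with ⟨p5, p6, -⟩ | ⟨p5, p6⟩
    · simp [p5, p6]
    · have : x ∉ l := fun k => by
        obtain ⟨q, k1, k2⟩ := mem_iff_getD.1 k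
        have := p6 q k1 k2
        omega
      simp [p5, this]
  · refine ⟨fun j h1 => ?_, 0, l.length, by simp, by simp, le_rfl, by omega,
      Or.inr ⟨by simp, fun q h1 _ => ⟨Nat.zero_le _, h1⟩⟩⟩
    simp (disch := omega) only [update_of_ne]

def body : Cmd :=
  .seq (.load 19 16) <| .seq bs <|
  .ite 2 22
    (.seq (.bin .mod 25 19 4) <| .ite 2 25 (.seq (.bin .add 14 13 2) .skip) <|
      .seq (.bin .mod 25 19 5) <|
      .ite 2 25 (.seq (.const 12 0) <| .seq (.bin .add 14 13 2) .skip) <|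
      .seq (.bin .add 15 15 13) <| .seq (.bin .add 16 15 2) <| .seq (.bin .add 14 14 3) .skip)
    (.seq (.bin .add 16 16 3) <| .seq (.bin .add 14 14 3) .skip)

def proc : Cmd :=
  .seq (.load 17 10) <| .seq (.bin .add 25 10 3) <| .seq (.load 18 25) <| .seq (.load 15 11) <|
  .seq (.load 13 15) <| .seq (.bin .add 15 15 3) <| .seq (.bin .add 16 15 2) <|
  .seq (.const 14 0) <| .seq (.const 12 1) <| .loop 14 13 body

/-- The sorted list of `A` and the table `it` lie in the image at the addresses stored at `qr`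
and `qs`. -/
def Lay (D : List ℕ) (B Lg K qr qs : ℕ) (A : Finset ℕ) (it : ℕ → ℕ → ℕ) : Prop :=
  qr ≤ B ∧ ∃ (l : List ℕ) (o s : ℕ), (∀ x, x ∈ l ↔ x ∈ A) ∧ l.Pairwise (· < ·) ∧
    l.length < 2 ^ Lg ∧ D.getD qr 0 = o ∧ D.getD (qr + 1) 0 = o + l.length ∧
    (∀ q < l.length, D.getD (o + q) 0 = l.getD q 0) ∧ o + l.length ≤ B ∧ D.getD qs 0 = s ∧
    D.getD s 0 = K ∧ s + 1 + K * K + K ≤ B ∧
    ∀ i < K, ∀ j < K, D.getD (s + 1 + i * K + j) 0 = it i j

theorem proc_spec {B Lg K qr qs : ℕ} {A : Finset ℕ} {it : ℕ → ℕ → ℕ} (hG : Glob r)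
    (h10 : r 10 = qr) (h11 : r 11 = qs) (hL : Lay D B Lg K qr qs A it) (b5 : 4 * B + 8 < 2 ^ w) :
    Tr w D proc r W (fun r' _ => (∀ j < 10, r' j = r j) ∧ r' 12 = (go A it K 0 0).toNat)
      (K * (Lg * 11 + 17 + 2) + 2 + 9) := by
  obtain ⟨b0, l, o, s, a1, a2, a3, a4, a5, a6, a7, a8, a9, a10, a11⟩ := hL
  refine Tr.load o (by rwa [h10]) ?_
  refine Tr.bin (qr + 1) (by simp [Op.ev, h10, hG.g3]) (by omega) ?_
  refine Tr.load (o + l.length) (by simpa using a5) ?_
  refine Tr.load s (by simpa [h11] using a8) ?_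
  refine Tr.load K (by simpa using a9) ?_
  refine Tr.bin (s + 1) (by simp [Op.ev, hG.g3]) (by omega) ?_
  refine Tr.bin (s + 1) (by simp [Op.ev, hG.g2]) (by omega) ?_
  refine Tr.const (by omega) ?_
  refine Tr.const (by omega) ?_
  refine tr_wh (t := Lg * 11 + 17) (fun m r' _ => (∀ j < 10, r' j = r j) ∧ r' 13 = K ∧
      r' 17 = o ∧ r' 18 = o + l.length ∧ (r' 14 = K ∧ r' 12 = (go A it K 0 0).toNat ∨
        r' 12 = 1 ∧ r' 14 + m = K ∧ ∃ i j, r' 15 = s + 1 + i * K ∧ r' 16 = s + 1 + i * K + j ∧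
          i + j + m ≤ K ∧ go A it K 0 0 = go A it m i j)) ?_ ?_ ?_ _ _ _ ?_
  · rintro m r' W' ⟨hf, p13, p17, p18, p⟩ hc
    obtain ⟨p12, p14, i, j, p15, p16, pij, pg⟩ := p.resolve_left (by omega)
    have G := hG.frame hf
    have hiK : (i + 1) * K ≤ K * K := Nat.mul_le_mul_right _ (by omega)
    rw [Nat.succ_mul] at hiK
    rw [go] at pg
    refine Tr.le (t' := 11 + (Lg * (9 + 2) + 2 + 1 + 1 + 1) + 1) ?_ (by omega)
    refine Tr.load (it i j) (by rw [p16]; exact a11 i (by omega) j (by omega)) ?_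
    refine Tr.seq (bs_spec (l := l) (o := o) (x := it i j) (G.frame fun j hj =>
      update_of_ne (by omega) _ _) (by simp [p17]) (by simp [p18]) (by simp) a2 a3 a6 a7 b5) ?_
    rintro r2 W2 ⟨f2, q22⟩
    have f3 : ∀ j < 19, r2 j = r' j := fun j hj => (f2 j (by omega)).trans
      (update_of_ne (by omega) _ _)
    have q19 : r2 19 = it i j := (f2 19 (by omega)).trans (update_self _ _ _)
    have G2 := G.frame fun j hj => f3 j (by omega)
    have q12 := (f3 12 (by omega)).trans p12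
    have q13 := (f3 13 (by omega)).trans p13
    have q14 := f3 14 (by omega)
    have q15 := (f3 15 (by omega)).trans p15
    have q16 := (f3 16 (by omega)).trans p16
    have q17 := (f3 17 (by omega)).trans p17
    have q18 := (f3 18 (by omega)).trans p18
    have f4 : ∀ j < 10, r2 j = r j := fun j hj => (f3 j (by omega)).trans (hf j hj)
    rw [a1] at q22
    refine Tr.ite (t := 9) (fun h => ?_) fun h => Tr.le (t' := 0 + 1 + 1) ?_ (by omega)
    · rw [G2.g2] at h
      rw [if_pos (q22.1 h)] at pg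
      refine Tr.bin (it i j % 2) (by simp [Op.ev, q19, G2.g4]) (by omega) ?_
      refine Tr.ite (t := 6) (fun h1 => Tr.le (t' := 0 + 1) ?_ (by omega)) fun h1 => ?_
      · have h2 : 0 < it i j % 2 := by simpa [G2.g2] using h1
        rw [if_pos (by omega)] at pg
        refine Tr.bin K (by simp [Op.ev, q13, G2.g2]) (by omega) (Tr.skip ⟨fun j hj => ?_,
          by simp [q13], by simp [q17], by simp [q18], Or.inl ⟨by simp, by simp [q12, pg]⟩⟩)
        simp (disch := omega) only [update_of_ne]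
        exact f4 j hj
      · have h2 : it i j % 2 = 0 := by simpa [G2.g2] using h1
        rw [if_neg (by omega)] at pg
        refine Tr.bin (it i j % 4) (by simp [Op.ev, q19, G2.g5]) (by omega) ?_
        refine Tr.ite (t := 3) (fun h3 => Tr.le (t' := 0 + 1 + 1) ?_ (by omega)) fun h3 => ?_
        · have h4 : 0 < it i j % 4 := by simpa [G2.g2] using h3
          rw [if_pos (by omega)] at pg
          refine Tr.const (by omega) ?_
          refine Tr.bin K (by simp [Op.ev, q13, G2.g2]) (by omega) (Tr.skip ⟨fun j hj => ?_,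
            by simp [q13], by simp [q17], by simp [q18], Or.inl ⟨by simp, by simp [pg]⟩⟩)
          simp (disch := omega) only [update_of_ne]
          exact f4 j hj
        · have h4 : it i j % 4 = 0 := by simpa [G2.g2] using h3
          rw [if_neg (by omega)] at pg
          refine Tr.bin (s + 1 + (i + 1) * K) (by simp [Op.ev, q13, q15]; ring)
            (by rw [Nat.succ_mul]; omega) ?_
          refine Tr.bin (s + 1 + (i + 1) * K) (by simp [Op.ev, G2.g2])
            (by rw [Nat.succ_mul]; omega) ?_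
          refine Tr.bin (r' 14 + 1) (by simp [Op.ev, q14, G2.g3]) (by omega)
            (Tr.skip ⟨fun j hj => ?_, by simp [q13], by simp [q17], by simp [q18],
              Or.inr ⟨by simp [q12], by simp; omega, i + 1, 0, by simp, by simp, by omega, pg⟩⟩)
          simp (disch := omega) only [update_of_ne]
          exact f4 j hj
    · rw [G2.g2] at h
      rw [if_neg fun k => h (q22.2 k)] at pg
      refine Tr.bin (s + 1 + i * K + (j + 1)) (by simp [Op.ev, q16, G2.g3, Nat.add_assoc])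
        (by omega) ?_
      refine Tr.bin (r' 14 + 1) (by simp [Op.ev, q14, G2.g3]) (by omega)
        (Tr.skip ⟨fun j hj => ?_, by simp [q13], by simp [q17], by simp [q18],
          Or.inr ⟨by simp [q12], by simp; omega, i, j + 1, by simp [q15], by simp, by omega, pg⟩⟩)
      simp (disch := omega) only [update_of_ne]
      exact f4 j hj
  · rintro r' W' ⟨-, p13, -, -, p | p⟩ <;> omega
  · rintro m r' W' ⟨hf, p13, -, -, p | ⟨p12, p14, i, j, -, -, -, pg⟩⟩ hc
    · exact ⟨hf, p.2⟩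
    · obtain rfl : m = 0 := by omega
      exact ⟨hf, by rw [p12, pg]; rfl⟩
  · refine ⟨fun j hj => ?_, by simp, by simp, by simp,
      Or.inr ⟨by simp, by simp, 0, 0, by simp, by simp, by omega, rfl⟩⟩
    simp (disch := omega) only [update_of_ne]

def whole : Cmd :=
  .seq (.const 3 1) <| .seq (.const 4 2) <| .seq (.const 5 4) <| .seq (.bin .mul 10 0 5) <|
  .seq (.bin .mul 11 1 5) <| .seq (.bin .add 11 11 3) <| .seq proc <| .seq (.bin .add 6 12 2) <|
  .seq (.bin .mul 10 1 5) <| .seq (.bin .add 10 10 4) <| .seq (.bin .mul 11 0 5) <|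
  .seq (.bin .add 11 11 4) <| .seq (.bin .add 11 11 3) <| .seq proc <|
  .seq (.bin .add 6 6 12) .skip

def prog : List Instr := whole.comp 0 ++ [.jlt 2 6 (whole.len + 2), .halt false, .halt true]

theorem whole_spec {B Lg K u v : ℕ} {A A' : Finset ℕ} {it it' : ℕ → ℕ → ℕ}
    (hL : Lay D B Lg K (4 * u) (4 * v + 1) A it) (hL' : Lay D B Lg K (4 * v + 2) (4 * u + 3) A' it')
    (b5 : 4 * B + 8 < 2 ^ w) :
    Tr w D whole (fun i => if i = 0 then u else if i = 1 then v else 0) W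
      (fun r' _ => r' 2 = 0 ∧ r' 6 = (go A it K 0 0).toNat + (go A' it' K 0 0).toNat)
      (2 * (K * (Lg * 11 + 17 + 2)) + 35) := by
  have b1 := hL.1
  have b2 := hL'.1
  refine Tr.le (t' := 0 + 1 + (K * (Lg * 11 + 17 + 2) + 2 + 9) + 1 + 1 + 1 + 1 + 1 + 1 +
    (K * (Lg * 11 + 17 + 2) + 2 + 9) + 1 + 1 + 1 + 1 + 1 + 1) ?_ (by omega)
  refine Tr.const (by omega) (Tr.const (by omega) (Tr.const (by omega) ?_))
  refine Tr.bin (4 * u) (by simp [Op.ev, Nat.mul_comm]) (by omega) ?_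
  refine Tr.bin (4 * v) (by simp [Op.ev, Nat.mul_comm]) (by omega) ?_
  refine Tr.bin (4 * v + 1) (by simp [Op.ev]) (by omega) ?_
  refine Tr.seq (proc_spec ⟨by simp, by simp, by simp, by simp⟩ (by simp) (by simp) hL b5) ?_
  rintro r1 W1 ⟨f1, p1⟩
  have e0 : r1 0 = u := by simp [f1]
  have e1 : r1 1 = v := by simp [f1]
  have G : Glob r1 := ⟨by simp [f1], by simp [f1], by simp [f1], by simp [f1]⟩
  have t1 := Bool.toNat_le (go A it K 0 0)
  have t2 := Bool.toNat_le (go A' it' K 0 0)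
  refine Tr.bin (go A it K 0 0).toNat (by simp [Op.ev, p1, G.g2]) (by omega) ?_
  refine Tr.bin (4 * v) (by simp [Op.ev, e1, G.g5, Nat.mul_comm]) (by omega) ?_
  refine Tr.bin (4 * v + 2) (by simp [Op.ev, G.g4]) (by omega) ?_
  refine Tr.bin (4 * u) (by simp [Op.ev, e0, G.g5, Nat.mul_comm]) (by omega) ?_
  refine Tr.bin (4 * u + 2) (by simp [Op.ev, G.g4]) (by omega) ?_
  refine Tr.bin (4 * u + 3) (by simp [Op.ev, G.g3]) (by omega) ?_
  refine Tr.seq (proc_spec ⟨by simp [G.g2], by simp [G.g3], by simp [G.g4], by simp [G.g5]⟩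
    (by simp) (by simp) hL' b5) ?_
  rintro r2 W2 ⟨f2, p2⟩
  refine Tr.bin ((go A it K 0 0).toNat + (go A' it' K 0 0).toNat) (by simp [Op.ev, p2, f2])
    (by omega) (Tr.skip ⟨by simp [f2, G.g2], by simp⟩)

theorem mach {B Lg K u v : ℕ} {A A' : Finset ℕ} {it it' : ℕ → ℕ → ℕ}
    (hL : Lay D B Lg K (4 * u) (4 * v + 1) A it) (hL' : Lay D B Lg K (4 * v + 2) (4 * u + 3) A' it')
    (b5 : 4 * B + 8 < 2 ^ w) (W : ℕ → ℕ) :
    run prog w D (2 * (K * (Lg * 11 + 17 + 2)) + 37) 0
      (fun i => if i = 0 then u else if i = 1 then v else 0) W =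
        some (go A it K 0 0 || go A' it' K 0 0) := by
  obtain ⟨r', W', t, h1, h2, h3, h4⟩ := whole_spec (W := W) hL hL' b5
  have a0 : At prog 0 prog := fun k _ => by rw [Nat.zero_add]
  have a1 := At.append (l1 := whole.comp 0) a0
  rw [Cmd.length_comp] at a1
  have a2 := a1.2.cons
  have a3 := a2.2.cons
  have a4 := a3.2.cons.1
  have s := h1.sim 0 a1.1 2
  rw [run, a2.1] at s
  refine run_mono (t := 2 + t) ?_ (by omega)
  cases hb : (go A it K 0 0 || go A' it' K 0 0)
  · rw [Bool.or_eq_false_iff] at hb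
    have hc : ¬ r' 2 < r' 6 := by simp [h4, hb]
    simp only [hc, if_false] at s
    rw [s, run, a3.1]
  · have hc : r' 2 < r' 6 := by
      rw [h3, h4]
      rcases Bool.or_eq_true_iff.1 hb with k | k <;> simp [k]
    simp only [hc, if_true] at s
    rw [s, run, show whole.len + 2 = 0 + whole.len + 1 + 1 by omega, a4]

end Pool.Agent.Lib.MP_a349b4_lc.TH
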