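import Pool.Agent.Lib.MP_a349b4_lc.TH.Root
import Pool.Agent.Lib.MP_a349b4_lc.TH.Mach
import Pool.Agent.Lib.MP_a349b4_lc.TH.Csr

/-! Both directions together, the memory image and the final bound. -/

set_option autoImplicit false

namespace Pool.Agent.Lib.MP_a349b4_lc.TH

open Finset LG

theorem both (n : ℕ) (R : ℕ → ℕ → Prop) [DecidableRel R] (T N : ℕ)
    (h1 : ∑ b ∈ range n, (outS n R b).card ≤ N) (h2 : ∑ b ∈ range n, (inL n R b).length ≤ N)
    (hn : n ≤ N) (hT : 1 ≤ T) (hT4 : T ^ 4 ≤ N) :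
    ∃ (A A' : ℕ → Finset ℕ) (it it' : ℕ → ℕ → ℕ → ℕ),
      (∀ u < n, ∀ v < n, (go (A u) (it v) (2 * T + 4) 0 0 || go (A' v) (it' u) (2 * T + 4) 0 0) =
        true ↔ rch n R u v) ∧
      (∑ u ∈ range n, (A u).card) * T ^ 2 ≤ 12 * N ^ 2 ∧
      (∑ u ∈ range n, (A' u).card) * T ^ 2 ≤ 12 * N ^ 2 ∧
      (∀ u, ∀ k ∈ A u, k ≤ 4 * n + 7) ∧ (∀ u, ∀ k ∈ A' u, k ≤ 4 * n + 7) ∧
      (∀ v < n, ∀ i j, it v i j ≤ 4 * n + 7) ∧ ∀ v < n, ∀ i j, it' v i j ≤ 4 * n + 7 := by
  obtain ⟨H, hH⟩ : ∃ H, H = (range n).filter fun a =>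
    T ^ 2 < (outS n R a).card + (inL n R a).length := ⟨_, rfl⟩
  have e1 : ∀ v, (inL n R v).length = (outS n (fun x y => R y x) v).card := length_inL
  have e2 : ∀ v, (inL n (fun x y => R y x) v).length = (outS n R v).card := length_inL
  have hl : ∀ a < n, a ∉ H → (outS n R a).card + (inL n R a).length ≤ T ^ 2 := fun a ha h => by
    rw [hH, mem_filter, mem_range] at h
    omega
  have hc : H.card * T ^ 2 ≤ 2 * N := by
    have : H.card * T ^ 2 ≤ ∑ a ∈ range n, ((outS n R a).card + (inL n R a).length) := by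
      rw [← smul_eq_mul]
      refine (card_nsmul_le_sum H (fun a => (outS n R a).card + (inL n R a).length) _
        fun a ha => ?_).trans (sum_le_sum_of_subset (hH ▸ filter_subset _ _))
      rw [hH, mem_filter] at ha
      exact ha.2.le
    rw [sum_add_distrib] at this
    omega
  refine ⟨root n R T H, root n (fun x y => R y x) T H, tab n R T, tab n (fun x y => R y x) T,
    fun u hu v hv => ?_, root_size h1 h2 hn hT hT4 (fun a ha h => ?_) hc,
    root_size (by simpa only [e1] using h2) (by simpa only [e2] using h1) hn hT hT4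
      (fun a ha h => ?_) hc, fun _ _ => root_le, fun _ _ => root_le, fun _ => tab_le,
    fun _ => tab_le⟩
  · rw [Bool.or_eq_true_iff]
    constructor
    · rintro (h | h)
      · exact root_sound hv h
      · obtain ⟨b, hb, a, ha, k1, k2, k3⟩ := root_sound hu h
        exact ⟨a, ha, b, hb, k3, k2, k1⟩
    · rintro ⟨a, ha, b, hb, k1, k2, k3⟩
      by_cases c1 : T < (outS n R u).card
      · exact Or.inl (root_heavy hv c1 ⟨a, ha, b, hb, k1, k2, k3⟩)
      by_cases c2 : T < (inL n R v).length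
      · exact Or.inr (root_heavy hu (e1 v ▸ c2) ⟨b, hb, a, ha, k3, k2, k1⟩)
      by_cases c3 : a ∈ H
      · exact Or.inr (root_light hu (by rw [← e1]; omega) (by rw [e2]; omega) hb ha k3 k2 k1
          (Or.inl c3))
      · exact Or.inl (root_light hv (by omega) (by omega) ha hb k1 k2 k3 (Or.inr c3))
  · have := hl a ha h
    omega
  · have := hl a ha h
    rw [e2]
    omega

theorem deg_sum {α : Type} (n : ℕ) (R : ℕ → ℕ → Prop) [DecidableRel R] (E : Finset α)
    (f g : α → ℕ) (hf : ∀ e, f e < n) (h : ∀ x y, R x y → x = y ∨ ∃ e ∈ E, f e = x ∧ g e = y) :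
    ∑ b ∈ range n, (outS n R b).card ≤ n + E.card := by
  have : ∀ b, (outS n R b).card ≤ 1 + (E.filter fun e => f e = b).card := fun b => by
    have : outS n R b ⊆ insert b ((E.filter fun e => f e = b).image g) := fun y hy => by
      rcases h _ _ (mem_outS.1 hy).2 with k | ⟨e, k1, k2, k3⟩
      · exact k ▸ mem_insert_self _ _
      · exact mem_insert_of_mem (mem_image.2 ⟨e, mem_filter.2 ⟨k1, k2⟩, k3⟩)
    have k1 := card_le_card this
    have k2 := card_insert_le b ((E.filter fun e => f e = b).image g)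
    have k3 := card_image_le (s := E.filter fun e => f e = b) (f := g)
    omega
  refine (sum_le_sum fun b _ => this b).trans ?_
  rw [sum_add_distrib, ← card_eq_sum_card_fiberwise fun e _ => mem_range.2 (hf e)]
  simp

/-- The edge relation with a loop added at every vertex. -/
def Rl {n : ℕ} (E : Finset (Fin n × Fin n)) (x y : ℕ) : Prop :=
  x = y ∨ ∃ e ∈ E, (e.1 : ℕ) = x ∧ (e.2 : ℕ) = y

theorem reach_step {n k : ℕ} {E : Finset (Fin n × Fin n)} {u x y : Fin n} (h : Reach E k u x)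
    (h' : Rl E x y) : Reach E (k + 1) u y := by
  obtain ⟨l, hl, p, p0, pl, pe⟩ := h
  rcases h' with h' | ⟨e, he, k1, k2⟩
  · exact ⟨l, by omega, p, p0, pl.trans (Fin.ext h'), pe⟩
  · refine ⟨l + 1, by omega, fun i => if i ≤ l then p i else y, by simp [p0], by simp,
      fun i hi => ?_⟩
    rcases Nat.lt_succ_iff_lt_or_eq.1 hi with k | rfl
    · simp only [k.le, Nat.succ_le_of_lt k, if_true]
      exact pe i k
    · simp only [le_refl, if_true, Nat.not_succ_le_self, if_false, pl]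
      rwa [← Fin.ext k1, ← Fin.ext k2]

theorem rch_iff {n : ℕ} {E : Finset (Fin n × Fin n)} (u v : Fin n) :
    rch n (Rl E) u v ↔ Reach E 3 u v := by
  constructor
  · rintro ⟨a, ha, b, hb, k1, k2, k3⟩
    exact reach_step (x := ⟨b, hb⟩) (reach_step (x := ⟨a, ha⟩) (reach_step (k := 0)
      ⟨0, le_rfl, fun _ => u, rfl, rfl, fun i hi => absurd hi (by omega)⟩ k1) k2) k3
  · rintro ⟨l, hl, p, p0, pl, pe⟩
    have st : ∀ i, Rl E (p (min i l)) (p (min (i + 1) l)) := fun i => by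
      rcases Nat.lt_or_ge i l with k | k
      · rw [min_eq_left k.le, min_eq_left (Nat.succ_le_of_lt k)]
        exact Or.inr ⟨_, pe i k, rfl, rfl⟩
      · rw [min_eq_right k, min_eq_right (Nat.le_succ_of_le k)]
        exact Or.inl rfl
    have s0 := st 0
    have s2 := st 2
    rw [Nat.zero_min, p0] at s0
    rw [min_eq_right hl, pl] at s2
    exact ⟨_, (p (min 1 l)).2, _, (p (min 2 l)).2, s0, st 1, s2⟩

theorem sum_four (g : ℕ → ℕ) (n : ℕ) : ∑ b ∈ range (4 * n), g b =
    ∑ x ∈ range n, (g (4 * x) + g (4 * x + 1) + g (4 * x + 2) + g (4 * x + 3)) := by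
  induction n with
  | zero => simp
  | succ n ih =>
    rw [Nat.mul_succ, sum_range_succ _ (4 * n + 3), sum_range_succ _ (4 * n + 2),
      sum_range_succ _ (4 * n + 1), sum_range_succ _ (4 * n), ih, sum_range_succ]
    omega

def tabl (K : ℕ) (it : ℕ → ℕ → ℕ) : List ℕ :=
  K :: (List.range (K * K)).map fun z => it (z / K) (z % K)

theorem length_tabl (K : ℕ) (it : ℕ → ℕ → ℕ) : (tabl K it).length = K * K + 1 := by simp [tabl]

theorem lay_of {D : List ℕ} {off : ℕ → ℕ} {F : ℕ → List ℕ} {Q M Lg K qr qs : ℕ} {A : Finset ℕ}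
    {it : ℕ → ℕ → ℕ} (d2 : Q ≤ off Q) (d3 : ∀ a ≤ Q, D.getD a 0 = off a)
    (d4 : ∀ a < Q, off (a + 1) = off a + (F a).length ∧
      ∀ q < (F a).length, D.getD (off a + q) 0 = (F a).getD q 0)
    (h1 : qr < Q) (h2 : qs < Q) (f1 : F qr = A.sort) (f2 : F qs = tabl K it)
    (hA : ∀ k ∈ A, k < M) (hM : M < 2 ^ Lg) : Lay D (off Q + K) Lg K qr qs A it := by
  have mono : ∀ a ≤ Q, off a ≤ off Q := fun a ha => by
    induction ha using Nat.decreasingInduction with
    | self => exact le_rfl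
    | of_succ k hk ih => have := (d4 k hk).1; omega
  obtain ⟨c1, c2⟩ := d4 qr h1
  obtain ⟨c3, c4⟩ := d4 qs h2
  have m1 := mono (qr + 1) h1
  have m2 := mono (qs + 1) h2
  rw [f1] at c1 c2
  rw [f2, length_tabl] at c3 c4
  refine ⟨by omega, A.sort, off qr, off qs, fun x => mem_sort _, (sortedLT_sort A).pairwise, ?_,
    d3 _ h1.le, (d3 _ h1).trans c1, c2, by omega, d3 _ h2.le, c4 0 (by omega), by omega,
    fun i hi j hj => ?_⟩
  · rw [length_sort]
    refine lt_of_le_of_lt ?_ hM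
    rw [← card_range M]
    exact card_le_card fun k hk => mem_range.2 (hA k hk)
  · have : (i + 1) * K ≤ K * K := Nat.mul_le_mul_right _ hi
    rw [Nat.succ_mul] at this
    rw [show off qs + 1 + i * K + j = off qs + (i * K + j + 1) by omega, c4 _ (by omega), tabl,
      List.getD_cons_succ, List.getD_eq_getElem _ _ (by simp; omega), List.getElem_map,
      List.getElem_range, Nat.mul_comm i K, Nat.mul_add_div (by omega), Nat.mul_add_mod,
      Nat.div_eq_of_lt hj, Nat.mod_eq_of_lt hj, Nat.add_zero]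

theorem main : ∃ (P : List Instr) (C : ℕ), ∀ (n T w : ℕ) (E : Finset (Fin n × Fin n)), 1 ≤ T →
    T ^ 4 ≤ n + E.card → C * (n + E.card) ^ 2 ≤ 2 ^ w →
    ∃ D : List ℕ, Answers P w 3 E D (C * T * (Nat.log 2 n + 1)) ∧
      D.length * T ^ 2 ≤ C * (n + E.card) ^ 2 := by
  refine ⟨prog, 800, fun n T w E hT hT4 hw => ?_⟩
  have inst : DecidableRel (Rl E) := Classical.decRel _
  have s1 := deg_sum n (Rl E) E (fun e => e.1) (fun e => e.2) (fun e => e.1.2) fun _ _ h => h
  have s2 := deg_sum n (fun x y => Rl E y x) E (fun e => e.2) (fun e => e.1) (fun e => e.2.2)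
    fun _ _ h => h.imp Eq.symm fun ⟨e, k1, k2, k3⟩ => ⟨e, k1, k3, k2⟩
  obtain ⟨N, hN⟩ : ∃ N, N = n + E.card := ⟨_, rfl⟩
  rw [← hN] at s1 s2 hT4 hw ⊢
  have hn : n ≤ N := by omega
  obtain ⟨A, A', it, it', a1, a2, a3, a4, a5, a6, a7⟩ :=
    both n (Rl E) T N s1 (by simpa only [length_inL] using s2) hn hT hT4
  obtain ⟨K, hK⟩ : ∃ K, K = 2 * T + 4 := ⟨_, rfl⟩
  rw [← hK] at a1
  obtain ⟨F, hF⟩ : ∃ F : ℕ → List ℕ, F = fun z =>
    if z % 4 = 0 then (A (z / 4)).sort (· ≤ ·) else if z % 4 = 1 then tabl K (it (z / 4)) else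
    if z % 4 = 2 then (A' (z / 4)).sort (· ≤ ·) else tabl K (it' (z / 4)) := ⟨_, rfl⟩
  have f0 : ∀ x, F (4 * x) = (A x).sort := fun x => by simp [hF]
  have f1 : ∀ x, F (4 * x + 1) = tabl K (it x) := fun x => by
    simp [hF, show (4 * x + 1) / 4 = x by omega]
  have f2 : ∀ x, F (4 * x + 2) = (A' x).sort := fun x => by
    simp [hF, show (4 * x + 2) / 4 = x by omega]
  have f3 : ∀ x, F (4 * x + 3) = tabl K (it' x) := fun x => by
    simp [hF, show (4 * x + 3) / 4 = x by omega]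
  obtain ⟨D, off, d1, d2, d3, d4, d5⟩ := exists_csr F (4 * n)
  rw [sum_four] at d2
  simp only [f0, f1, f2, f3, length_sort, length_tabl, sum_add_distrib, sum_const, card_range,
    smul_eq_mul, mul_one] at d2
  have t1 : T ≤ N := (Nat.le_self_pow (by omega) T).trans hT4
  have t2 : T ^ 2 ≤ N := (Nat.pow_le_pow_right hT (by omega)).trans hT4
  have kk : K * K ≤ 6 * T * (6 * T) := Nat.mul_le_mul (by omega) (by omega)
  have N1 : N ≤ N ^ 2 := Nat.le_self_pow (by omega) N
  have hsz : off (4 * n) * T ^ 2 ≤ 103 * N ^ 2 := by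
    have e1 : n * T ^ 2 ≤ N * N := Nat.mul_le_mul hn t2
    have e2 : n * T ^ 4 ≤ N * N := Nat.mul_le_mul hn hT4
    have e3 : n * (K * K) * T ^ 2 ≤ n * (6 * T * (6 * T)) * T ^ 2 :=
      Nat.mul_le_mul_right _ (Nat.mul_le_mul_left _ kk)
    rw [d2]
    nlinarith
  have hoff : off (4 * n) ≤ 103 * N ^ 2 :=
    (Nat.le_mul_of_pos_right _ (Nat.pow_pos hT)).trans hsz
  have hlog : 4 * n + 8 < 2 ^ (Nat.log 2 n + 4) := by
    have h1 := Nat.lt_pow_succ_log_self (b := 2) (by omega) n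
    rw [pow_succ] at h1
    rw [pow_add]
    omega
  refine ⟨D, ⟨fun x hx => ?_, fun u v W => ⟨_, run_mono (mach
    (lay_of (by omega) d3 d4 (by omega) (by omega) (f0 u) (f1 v)
      (fun k hk => Nat.lt_succ_of_le (a4 u k hk)) hlog)
    (lay_of (by omega) d3 d4 (by omega) (by omega) (f2 v) (f3 u)
      (fun k hk => Nat.lt_succ_of_le (a5 v k hk)) hlog) (by omega) W) ?_,
    (a1 u u.2 v v.2).trans (rch_iff u v)⟩⟩, ?_⟩
  · rcases d5 x hx with h | ⟨c, hc, h⟩
    · omega
    · have tb : ∀ g : ℕ → ℕ → ℕ, (∀ i j, g i j ≤ 4 * n + 7) → x ∈ tabl K g → x < 2 ^ w := by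
        intro g hg h
        rcases List.mem_cons.1 h with h | h
        · omega
        · obtain ⟨z, -, rfl⟩ := List.mem_map.1 h
          have := hg (z / K) (z % K)
          omega
      have hc4 : c / 4 < n := by omega
      rw [hF] at h
      dsimp only at h
      split_ifs at h
      · have := a4 _ _ ((mem_sort _).1 h)
        omega
      · exact tb _ (a6 _ hc4) h
      · have := a5 _ _ ((mem_sort _).1 h)
        omega
      · exact tb _ (a7 _ hc4) h
  · have : K * ((Nat.log 2 n + 4) * 11 + 17 + 2) ≤ 6 * T * (63 * (Nat.log 2 n + 1)) :=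
      Nat.mul_le_mul (by omega) (by omega)
    have h2 : 1 * 1 ≤ T * (Nat.log 2 n + 1) := Nat.mul_le_mul hT (by omega)
    nlinarith
  · rw [d1]
    omega

end Pool.Agent.Lib.MP_a349b4_lc.TH
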