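import Pool.Agent.Lib.MP_a349b4_lc.TH.Core

/-! The set stored for each root, its correctness and the total size. -/

set_option autoImplicit false

namespace Pool.Agent.Lib.MP_a349b4_lc.TH

open Finset

variable (n : ℕ) (R : ℕ → ℕ → Prop) [DecidableRel R] (T : ℕ) (H : Finset ℕ)

open Classical in
noncomputable def BL (u : ℕ) : Finset ℕ :=
  (range n).filter fun b => ∃ a < n, R u a ∧ R a b ∧ (b ∈ H ∨ a ∉ H)

noncomputable def root (u : ℕ) : Finset ℕ :=
  if T < (outS n R u).card then AH n R u (gr n R T u n) else AL n (BL n R H u)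

variable {n R T H} {u v : ℕ}

theorem mem_BL {b : ℕ} : b ∈ BL n R H u ↔ b < n ∧ ∃ a < n, R u a ∧ R a b ∧ (b ∈ H ∨ a ∉ H) := by
  simp only [BL, mem_filter, mem_range]

theorem root_sound (hv : v < n) (h : go (root n R T H u) (tab n R T v) (2 * T + 4) 0 0 = true) :
    rch n R u v := by
  rw [root] at h
  split_ifs at h
  · exact (heavy_iff hv).1 h
  · by_contra hc
    rw [light_false hv fun b hb k => ?_] at h
    · exact absurd h (by simp)
    · obtain ⟨b1, a, a1, a2, a3, -⟩ := mem_BL.1 hb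
      exact hc ⟨a, a1, b, b1, a2, a3, k⟩

theorem root_heavy (hv : v < n) (hT : T < (outS n R u).card) (h : rch n R u v) :
    go (root n R T H u) (tab n R T v) (2 * T + 4) 0 0 = true := by
  rw [root, if_pos hT]
  exact (heavy_iff hv).2 h

theorem root_light (hv : v < n) (hT : (outS n R u).card ≤ T) (hT' : (inL n R v).length ≤ T)
    {a b : ℕ} (ha : a < n) (hb : b < n) (h1 : R u a) (h2 : R a b) (h3 : R b v)
    (h : b ∈ H ∨ a ∉ H) : go (root n R T H u) (tab n R T v) (2 * T + 4) 0 0 = true := by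
  rw [root, if_neg (by omega)]
  exact light_true hv hb h3 (mem_BL.2 ⟨hb, a, ha, h1, h2, h⟩) hT' _

theorem root_le {k : ℕ} (h : k ∈ root n R T H u) : k ≤ 4 * n + 7 := by
  rw [root] at h
  split_ifs at h
  · rw [AH, mem_mk] at h
    rcases h with ⟨z, h, k⟩ | ⟨z, h, k⟩ | ⟨z, h, k⟩ | ⟨z, h, k⟩
    · rcases mem_insert.1 h with h | h
      · omega
      · have := (mem_gr h).1; omega
    · have := (mem_outS.1 h).1; omega
    · rcases mem_insert.1 h with h | h
      · omega
      · have := (mem_gr h).1; omega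
    · simp at h
  · rw [AL, mem_mk] at h
    rcases h with ⟨z, h, k⟩ | ⟨z, h, k⟩ | ⟨z, h, k⟩ | ⟨z, h, k⟩
    · simp only [mem_insert, mem_singleton] at h; omega
    · simp at h
    · simp only [mem_insert, mem_singleton] at h; omega
    · have := (mem_BL.1 h).1; omega

theorem card_BL (u : ℕ) : (BL n R H u).card ≤
    H.card + ∑ a ∈ range n, if R u a then (if a ∈ H then 0 else (outS n R a).card) else 0 := by
  have : BL n R H u ⊆ H ∪ (range n).biUnion fun a =>
      if R u a then (if a ∈ H then ∅ else outS n R a) else ∅ := by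
    intro b hb
    obtain ⟨b1, a, a1, a2, a3, h⟩ := mem_BL.1 hb
    rw [mem_union, mem_biUnion]
    rcases h with h | h
    · exact Or.inl h
    · exact Or.inr ⟨a, mem_range.2 a1, by rw [if_pos a2, if_neg h]; exact mem_outS.2 ⟨b1, a3⟩⟩
  refine (card_le_card this).trans ((card_union_le _ _).trans (Nat.add_le_add_left
    (card_biUnion_le.trans (sum_le_sum fun a _ => ?_)) _))
  split_ifs <;> simp

theorem sum_BL {N : ℕ} (h1 : ∑ b ∈ range n, (outS n R b).card ≤ N)
    (hl : ∀ a < n, a ∉ H → (inL n R a).length ≤ T ^ 2) :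
    ∑ u ∈ range n, (BL n R H u).card ≤ n * H.card + T ^ 2 * N := by
  refine (sum_le_sum fun u _ => card_BL u).trans ?_
  rw [sum_add_distrib, sum_const, card_range, smul_eq_mul, sum_comm]
  refine Nat.add_le_add_left (le_trans ?_ (Nat.mul_le_mul_left _ h1)) _
  rw [mul_sum]
  refine sum_le_sum fun a ha => ?_
  rw [← sum_filter, sum_const, smul_eq_mul]
  split_ifs with h
  · omega
  · have := hl a (mem_range.1 ha) h
    rw [length_inL] at this
    exact Nat.mul_le_mul_right _ this

theorem root_size {N : ℕ} (h1 : ∑ b ∈ range n, (outS n R b).card ≤ N)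
    (h2 : ∑ b ∈ range n, (inL n R b).length ≤ N) (hn : n ≤ N) (hT : 1 ≤ T) (hT4 : T ^ 4 ≤ N)
    (hl : ∀ a < n, a ∉ H → (inL n R a).length ≤ T ^ 2) (hc : H.card * T ^ 2 ≤ 2 * N) :
    (∑ u ∈ range n, (root n R T H u).card) * T ^ 2 ≤ 12 * N ^ 2 := by
  have g1 : ∀ u, (gr n R T u n).card * (2 * T) ≤ 4 * N := fun u => by
    refine (Nat.mul_le_mul_left _ (Nat.le_succ _)).trans ((gr_card u n le_rfl).trans
      ((sum_le_sum fun b _ => ch_le _ b).trans ?_))
    rw [sum_add_distrib, ← mul_sum]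
    omega
  have g2 : ∀ u, (root n R T H u).card * T ^ 2 ≤ (outS n R u).card * (4 * N) +
      ((outS n R u).card + 4 + (BL n R H u).card) * T ^ 2 := fun u => by
    rw [root]
    split_ifs with h
    · have k1 : (AH n R u (gr n R T u n)).card ≤
          2 * (gr n R T u n).card + ((outS n R u).card + 4 + (BL n R H u).card) := by
        have := card_mk (S0 := insert n (gr n R T u n)) (S1 := outS n R u)
          (S2 := insert n (gr n R T u n)) (S3 := ∅)
        have k := card_insert_le n (gr n R T u n)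
        rw [card_empty] at this
        rw [AH]
        omega
      refine (Nat.mul_le_mul_right _ k1).trans ?_
      rw [Nat.add_mul]
      refine Nat.add_le_add_right ?_ _
      calc 2 * (gr n R T u n).card * T ^ 2 = T * ((gr n R T u n).card * (2 * T)) := by ring
        _ ≤ _ := Nat.mul_le_mul h.le (g1 u)
    · have k1 : (AL n (BL n R H u)).card ≤ (outS n R u).card + 4 + (BL n R H u).card := by
        have := card_mk (S0 := {n, n + 1}) (S1 := ∅) (S2 := {n, n + 1}) (S3 := BL n R H u)
        have k := card_le_two (a := n) (b := n + 1)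
        rw [card_empty] at this
        rw [AL]
        omega
      exact (Nat.mul_le_mul_right _ k1).trans (Nat.le_add_left _ _)
  rw [sum_mul]
  refine (sum_le_sum fun u _ => g2 u).trans ?_
  rw [sum_add_distrib, ← sum_mul, ← sum_mul, sum_add_distrib, sum_add_distrib, sum_const,
    card_range, smul_eq_mul]
  have g3 := sum_BL h1 hl
  have t2 : T ^ 2 ≤ N := (Nat.pow_le_pow_right hT (by omega)).trans hT4
  obtain ⟨a, ha⟩ : ∃ a, a = ∑ b ∈ range n, (outS n R b).card := ⟨_, rfl⟩
  obtain ⟨c, hc'⟩ : ∃ c, c = ∑ u ∈ range n, (BL n R H u).card := ⟨_, rfl⟩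
  rw [← ha] at h1 ⊢
  rw [← hc'] at g3 ⊢
  have e1 : a * (4 * N) ≤ N * (4 * N) := Nat.mul_le_mul_right _ h1
  have e2 : a * T ^ 2 ≤ N * N := Nat.mul_le_mul h1 t2
  have e3 : n * T ^ 2 ≤ N * N := Nat.mul_le_mul hn t2
  have e4 : c * T ^ 2 ≤ (n * H.card + T ^ 2 * N) * T ^ 2 := Nat.mul_le_mul_right _ g3
  have e5 : n * (H.card * T ^ 2) ≤ N * (2 * N) := Nat.mul_le_mul hn hc
  have e6 : T ^ 4 * N ≤ N * N := Nat.mul_le_mul_right _ hT4
  nlinarith

end Pool.Agent.Lib.MP_a349b4_lc.TH
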